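import Pool.Agent.Zk25.KakCode

set_option autoImplicit false

/-! # A `C^r` function which decodes digits -/

namespace Pool.Agent.Zk11.KK

open Set
open scoped ContDiff

/-! ## A bump function on the circle -/

theorem bump (b Q : ℝ) (hQ : 0 ≤ Q) (hb : Q + 2 ≤ b) : ∃ Φ : ℝ → ℝ, ContDiff ℝ ∞ Φ ∧
    (∀ (y : ℝ) (m : ℤ), Φ (y + m) = Φ y) ∧
    (∀ y : ℝ, 0 ≤ b * y → b * y ≤ Q → Φ y = 1) ∧
    ∀ y : ℝ, (∀ z : ℤ, b * (y + z) ≤ -1 ∨ Q + 1 ≤ b * (y + z)) → Φ y = 0 := by
  have hb0 : 0 < b := by linarith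
  have hpi := Real.pi_pos
  obtain ⟨u, hu⟩ : ∃ u : ℝ, u = Real.pi / b := ⟨_, rfl⟩
  have hu0 : 0 < u := by rw [hu]; positivity
  have hpu : Real.pi = b * u := by
    rw [hu]
    field_simp
  have hle : (Q + 2) * u ≤ Real.pi := by
    rw [hpu]
    exact mul_le_mul_of_nonneg_right hb hu0.le
  have hΔ : 0 < Real.cos (Q * u) - Real.cos ((Q + 2) * u) := by
    have := Real.cos_lt_cos_of_nonneg_of_le_pi (by positivity : 0 ≤ Q * u) hle
      (by linarith : Q * u < (Q + 2) * u)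
    linarith
  refine ⟨fun y => Real.smoothTransition ((Real.cos (2 * Real.pi * y - Q * u) -
    Real.cos ((Q + 2) * u)) / (Real.cos (Q * u) - Real.cos ((Q + 2) * u))), ?_, ?_, ?_, ?_⟩
  · apply Real.smoothTransition.contDiff.comp
    apply ContDiff.div_const
    apply ContDiff.sub _ contDiff_const
    exact Real.contDiff_cos.comp ((contDiff_const.mul contDiff_id).sub contDiff_const)
  · intro y m
    have h5 : 2 * Real.pi * (y + m) - Q * u = 2 * Real.pi * y - Q * u + m * (2 * Real.pi) := by ring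
    simp only [h5, Real.cos_add_int_mul_two_pi]
  · intro y h1 h2
    apply Real.smoothTransition.one_of_one_le
    rw [le_div_iff₀ hΔ, one_mul]
    have h3 : |2 * Real.pi * y - Q * u| ≤ Q * u := by
      have h4 : 2 * Real.pi * y = 2 * (b * y) * u := by rw [hpu]; ring
      rw [h4, abs_le]
      constructor
      · nlinarith
      · nlinarith
    have h6 : Real.cos (Q * u) ≤ Real.cos (2 * Real.pi * y - Q * u) := by
      rw [← Real.cos_abs (2 * Real.pi * y - Q * u)]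
      exact Real.cos_le_cos_of_nonneg_of_le_pi (abs_nonneg _) (by linarith) h3
    linarith
  · intro y h
    apply Real.smoothTransition.zero_of_nonpos
    apply div_nonpos_of_nonpos_of_nonneg _ hΔ.le
    -- choose the representative in `[-π, π]`
    obtain ⟨z, hz⟩ : ∃ z : ℤ, |2 * Real.pi * (y + z) - Q * u| ≤ Real.pi := by
      refine ⟨- round (y - Q * u / (2 * Real.pi)), ?_⟩
      have h1 := abs_sub_round (y - Q * u / (2 * Real.pi))
      have h2 : 2 * Real.pi * (y + ((- round (y - Q * u / (2 * Real.pi)) : ℤ) : ℝ)) - Q * u =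
          2 * Real.pi * (y - Q * u / (2 * Real.pi) - round (y - Q * u / (2 * Real.pi))) := by
        push_cast
        field_simp
        ring
      rw [h2, abs_mul, abs_of_pos (by positivity : (0 : ℝ) < 2 * Real.pi)]
      nlinarith
    have h7 : Real.cos (2 * Real.pi * y - Q * u) = Real.cos (2 * Real.pi * (y + z) - Q * u) := by
      have h5 : 2 * Real.pi * (y + z) - Q * u = 2 * Real.pi * y - Q * u + z * (2 * Real.pi) := by
        ring
      rw [h5, Real.cos_add_int_mul_two_pi]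
    have h8 : 2 * Real.pi * (y + z) = 2 * (b * (y + z)) * u := by rw [hpu]; ring
    have h9 : (Q + 2) * u ≤ |2 * Real.pi * (y + z) - Q * u| := by
      rw [h8]
      rcases h z with h1 | h1
      · rw [abs_of_nonpos]
        · nlinarith
        · nlinarith
      · rw [abs_of_nonneg]
        · nlinarith
        · nlinarith
    have h10 : Real.cos (2 * Real.pi * (y + z) - Q * u) ≤ Real.cos ((Q + 2) * u) := by
      rw [← Real.cos_abs (2 * Real.pi * (y + z) - Q * u)]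
      exact Real.cos_le_cos_of_nonneg_of_le_pi (by positivity) hz h9
    rw [h7]
    linarith

/-! ## The series -/

theorem series {D : ℕ} (r : ℕ) (b N : ℝ) (hb : 1 ≤ b) (hN : b ^ r < N)
    (P : EuclideanSpace ℝ (Fin D) → ℝ) (hP : ContDiff ℝ ∞ P)
    (hper : ∀ (y : EuclideanSpace ℝ (Fin D)) (m : Fin D → ℤ),
      P (y + WithLp.toLp 2 (fun i => (m i : ℝ))) = P y) :
    ContDiff ℝ r (fun x => ∑' J : ℕ, P (b ^ J • x) / N ^ (J + 1)) := by
  have hb0 : 0 < b := by linarith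
  have hN0 : 0 < N := lt_trans (pow_pos hb0 r) hN
  have hbd : ∀ k : ℕ, ∃ M, ∀ y, ‖iteratedFDeriv ℝ k P y‖ ≤ M := by
    intro k
    refine Pool.Agent.Zk25.KakCode.bdd_of_periodic (iteratedFDeriv ℝ k P)
      (hP.continuous_iteratedFDeriv (by exact_mod_cast le_top)) fun y m => ?_
    have h1 : (fun y => P (y + WithLp.toLp 2 (fun i => (m i : ℝ)))) = P :=
      funext fun y => hper y m
    have h2 := iteratedFDeriv_comp_add_right (𝕜 := ℝ) (f := P) k
      (WithLp.toLp 2 (fun i => (m i : ℝ))) y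
    rw [← h2, h1]
  choose M hM using hbd
  have hM0 : ∀ k, 0 ≤ M k := fun k => (norm_nonneg _).trans (hM k 0)
  have key := contDiff_tsum (𝕜 := ℝ) (E := EuclideanSpace ℝ (Fin D)) (F := ℝ) (N := r)
    (f := fun (J : ℕ) x => P (b ^ J • x) / N ^ (J + 1))
    (v := fun k (J : ℕ) => M k / N * (b ^ r / N) ^ J) ?_ ?_ ?_
  · exact key
  · intro J
    have h1 : ContDiff ℝ r P := hP.of_le (by exact_mod_cast le_top)
    exact (h1.comp (contDiff_id.const_smul (b ^ J))).div_const _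
  · intro k _
    exact (summable_geometric_of_lt_one (by positivity) ((div_lt_one hN0).2 hN)).mul_left _
  · intro k J x hk
    have hkr : k ≤ r := by exact_mod_cast hk
    have hbJ : 1 ≤ b ^ J := one_le_pow₀ hb
    let L : EuclideanSpace ℝ (Fin D) →L[ℝ] EuclideanSpace ℝ (Fin D) :=
      b ^ J • ContinuousLinearMap.id ℝ (EuclideanSpace ℝ (Fin D))
    have hL : ‖L‖ ≤ b ^ J := by
      rw [norm_smul, Real.norm_of_nonneg (by positivity : 0 ≤ b ^ J)]
      exact (mul_le_mul_of_nonneg_left ContinuousLinearMap.norm_id_le (by positivity)).trans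
        (by rw [mul_one])
    have e1 : (fun x : EuclideanSpace ℝ (Fin D) => P (b ^ J • x) / N ^ (J + 1)) =
        (N ^ (J + 1))⁻¹ • (P ∘ L) := by
      funext y
      simp only [Pi.smul_apply, Function.comp_apply, smul_eq_mul]
      rw [div_eq_inv_mul]
      rfl
    have hPk : ContDiff ℝ k P := hP.of_le (by exact_mod_cast le_top)
    rw [e1, iteratedFDeriv_const_smul_apply (hPk.comp L.contDiff).contDiffAt,
      L.iteratedFDeriv_comp_right hPk x le_rfl, norm_smul, norm_inv,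
      Real.norm_of_nonneg (by positivity : 0 ≤ N ^ (J + 1))]
    have e2 : ‖(iteratedFDeriv ℝ k P (L x)).compContinuousLinearMap fun _ => L‖ ≤
        M k * (b ^ r) ^ J := by
      refine (ContinuousMultilinearMap.norm_compContinuousLinearMap_le _ _).trans ?_
      rw [Finset.prod_const, Finset.card_univ, Fintype.card_fin]
      refine mul_le_mul (hM k _) ?_ (by positivity) (hM0 k)
      calc ‖L‖ ^ k ≤ (b ^ J) ^ k := pow_le_pow_left₀ (norm_nonneg _) hL k
        _ ≤ (b ^ J) ^ r := pow_le_pow_right₀ hbJ hkr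
        _ = (b ^ r) ^ J := by rw [← pow_mul, ← pow_mul, mul_comm]
    calc (N ^ (J + 1))⁻¹ * ‖(iteratedFDeriv ℝ k P (L x)).compContinuousLinearMap fun _ => L‖
        ≤ (N ^ (J + 1))⁻¹ * (M k * (b ^ r) ^ J) := mul_le_mul_of_nonneg_left e2 (by positivity)
      _ = M k / N * (b ^ r / N) ^ J := by
        rw [div_pow, pow_succ']
        field_simp

/-! ## Digits -/

theorem summable_digits {b Q : ℕ} (hb : 2 ≤ b) {e : ℕ → ℕ} (he : ∀ l, e l ≤ Q * (b - 1)) :
    Summable fun l : ℕ => (e l : ℝ) / (b : ℝ) ^ (l + 1) := by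
  have hb' : (2 : ℝ) ≤ b := by exact_mod_cast hb
  have h1 : Summable fun l : ℕ => ((Q * (b - 1) : ℕ) : ℝ) / b * ((1 : ℝ) / b) ^ l :=
    (summable_geometric_of_lt_one (by positivity)
      ((div_lt_one (by linarith)).2 (by linarith))).mul_left _
  refine Summable.of_nonneg_of_le (fun l => by positivity) (fun l => ?_) h1
  have h2 : (e l : ℝ) ≤ ((Q * (b - 1) : ℕ) : ℝ) := by exact_mod_cast he l
  calc (e l : ℝ) / (b : ℝ) ^ (l + 1) ≤ ((Q * (b - 1) : ℕ) : ℝ) / (b : ℝ) ^ (l + 1) :=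
        div_le_div_of_nonneg_right h2 (by positivity)
    _ = _ := by
      rw [div_pow, one_pow, pow_succ']
      field_simp

theorem digits_bound {b Q : ℕ} (hb : 2 ≤ b) {e : ℕ → ℕ} (he : ∀ l, e l ≤ Q * (b - 1)) :
    0 ≤ ∑' l : ℕ, (e l : ℝ) / (b : ℝ) ^ (l + 1) ∧
      ∑' l : ℕ, (e l : ℝ) / (b : ℝ) ^ (l + 1) ≤ Q := by
  have hb' : (2 : ℝ) ≤ b := by exact_mod_cast hb
  refine ⟨tsum_nonneg fun l => by positivity, ?_⟩
  have h1 : Summable fun l : ℕ => ((Q * (b - 1) : ℕ) : ℝ) / b * ((1 : ℝ) / b) ^ l :=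
    (summable_geometric_of_lt_one (by positivity)
      ((div_lt_one (by linarith)).2 (by linarith))).mul_left _
  have h3 : ∑' l : ℕ, ((Q * (b - 1) : ℕ) : ℝ) / b * ((1 : ℝ) / b) ^ l = Q := by
    rw [tsum_mul_left, tsum_geometric_of_lt_one (by positivity)
      ((div_lt_one (by linarith)).2 (by linarith))]
    have hb1 : (b : ℝ) - 1 ≠ 0 := by linarith
    have hb2 : ((b - 1 : ℕ) : ℝ) = (b : ℝ) - 1 := by
      rw [Nat.cast_sub (by omega)]
      simp
    rw [Nat.cast_mul, hb2]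
    have hb3 : (b : ℝ) ≠ 0 := by linarith
    have hb4 : 1 - 1 / (b : ℝ) ≠ 0 := by
      rw [one_sub_div hb3]
      exact div_ne_zero hb1 hb3
    rw [one_sub_div hb3]
    field_simp
  rw [← h3]
  refine (summable_digits hb he).tsum_le_tsum (fun l => ?_) h1
  have h2 : (e l : ℝ) ≤ ((Q * (b - 1) : ℕ) : ℝ) := by exact_mod_cast he l
  calc (e l : ℝ) / (b : ℝ) ^ (l + 1) ≤ ((Q * (b - 1) : ℕ) : ℝ) / (b : ℝ) ^ (l + 1) :=
        div_le_div_of_nonneg_right h2 (by positivity)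
    _ = _ := by
      rw [div_pow, one_pow, pow_succ']
      field_simp

theorem digits_succ {b Q : ℕ} (hb : 2 ≤ b) {e : ℕ → ℕ} (he : ∀ l, e l ≤ Q * (b - 1)) :
    (b : ℝ) * ∑' l : ℕ, (e l : ℝ) / (b : ℝ) ^ (l + 1) =
      e 0 + ∑' l : ℕ, (e (l + 1) : ℝ) / (b : ℝ) ^ (l + 1) := by
  have hb' : (b : ℝ) ≠ 0 := by
    have : b ≠ 0 := by omega
    exact_mod_cast this
  rw [(summable_digits hb he).tsum_eq_zero_add, mul_add, ← tsum_mul_left]
  congr 1
  · rw [zero_add, pow_one]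
    field_simp
  · refine tsum_congr fun l => ?_
    rw [pow_succ' (b : ℝ) (l + 1)]
    field_simp

/-- `b ^ J x` is the `J`-th tail modulo integers -/
theorem digits_shift {b Q : ℕ} (hb : 2 ≤ b) {e : ℕ → ℕ} (he : ∀ l, e l ≤ Q * (b - 1)) (J : ℕ) :
    ∃ m : ℤ, (b : ℝ) ^ J * ∑' l : ℕ, (e l : ℝ) / (b : ℝ) ^ (l + 1) =
      ∑' l : ℕ, (e (l + J) : ℝ) / (b : ℝ) ^ (l + 1) + m := by
  induction J with
  | zero => exact ⟨0, by simp⟩
  | succ J ih =>
    obtain ⟨m, hm⟩ := ih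
    refine ⟨e (0 + J) + b * m, ?_⟩
    have h1 := digits_succ hb (e := fun l => e (l + J)) (fun l => he _)
    rw [pow_succ', mul_assoc, hm, mul_add, h1]
    have h2 : ∀ l, e (l + 1 + J) = e (l + (J + 1)) := fun l => by
      congr 1
      omega
    simp only [h2]
    push_cast
    ring

/-! ## The function -/

/-- D4: a function of class `C^r` which decodes digits -/
theorem smooth_code (r b N Q D : ℕ) (hb : 2 ≤ b) (hN : b ^ r < N) {ι : Type} [Finite ι]
    (q : ι → Fin D → ℕ) (β : ι → ℝ) (hq : ∀ a i, q a i ≤ Q * (b - 1))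
    (hsep : ∀ a a', a ≠ a' → ∃ i, ∀ z : ℤ, (Q : ℤ) + 2 ≤ |(q a i : ℤ) - q a' i + b * z|) :
    ∃ g : EuclideanSpace ℝ (Fin D) → ℝ, ContDiff ℝ r g ∧ ∀ s : ℕ → ι,
      g (WithLp.toLp 2 fun i => ∑' J : ℕ, (q (s J) i : ℝ) / (b : ℝ) ^ (J + 1)) =
        ∑' J : ℕ, β (s J) / (N : ℝ) ^ (J + 1) := by
  classical
  rcases nonempty_fintype ι with ⟨_⟩
  by_cases hsub : Subsingleton ι
  · rcases isEmpty_or_nonempty ι with he | ⟨⟨a⟩⟩
    · exact ⟨fun _ => 0, contDiff_const, fun s => (he.false (s 0)).elim⟩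
    · refine ⟨fun _ => ∑' J : ℕ, β a / (N : ℝ) ^ (J + 1), contDiff_const, fun s => ?_⟩
      refine tsum_congr fun J => ?_
      rw [Subsingleton.elim (s J) a]
  -- `b` is large
  have hbQ : 2 * Q + 4 ≤ b := by
    rw [not_subsingleton_iff_nontrivial] at hsub
    obtain ⟨a, a', haa⟩ := exists_pair_ne ι
    obtain ⟨i, hi⟩ := hsep a a' haa
    have hb0 : (0 : ℤ) < b := by omega
    have h1 := hi (-(((q a i : ℤ) - q a' i) / b))
    have h2 := hi (-(((q a i : ℤ) - q a' i) / b) - 1)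
    have h3 := Int.emod_add_mul_ediv ((q a i : ℤ) - q a' i) b
    have h4 := Int.emod_nonneg ((q a i : ℤ) - q a' i) hb0.ne'
    have h5 := Int.emod_lt_of_pos ((q a i : ℤ) - q a' i) hb0
    have h6 : (q a i : ℤ) - q a' i + b * (-(((q a i : ℤ) - q a' i) / b)) =
        ((q a i : ℤ) - q a' i) % b := by linarith
    have h7 : (q a i : ℤ) - q a' i + b * (-(((q a i : ℤ) - q a' i) / b) - 1) =
        ((q a i : ℤ) - q a' i) % b - b := by linarith
    rw [h6, abs_of_nonneg h4] at h1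
    rw [h7, abs_of_nonpos (by linarith)] at h2
    omega
  have hb' : (2 : ℝ) ≤ b := by exact_mod_cast hb
  have hb0 : (0 : ℝ) < b := by linarith
  have hbQ' : (Q : ℝ) + 2 ≤ b := by
    have : Q + 2 ≤ b := by omega
    exact_mod_cast this
  obtain ⟨Φ, hΦ1, hΦ2, hΦ3, hΦ4⟩ := bump b Q (Nat.cast_nonneg Q) hbQ'
  let P : EuclideanSpace ℝ (Fin D) → ℝ := fun y =>
    ∑ a : ι, (∏ i, Φ (y i - (q a i : ℝ) / b)) * β a
  have hP1 : ContDiff ℝ ∞ P := by
    refine ContDiff.sum fun a _ => ContDiff.mul ?_ contDiff_const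
    refine contDiff_prod fun l _ => hΦ1.comp ?_
    exact ((EuclideanSpace.proj l : EuclideanSpace ℝ (Fin D) →L[ℝ] ℝ).contDiff).sub contDiff_const
  have hP2 : ∀ (y : EuclideanSpace ℝ (Fin D)) (m : Fin D → ℤ),
      P (y + WithLp.toLp 2 (fun i => (m i : ℝ))) = P y := by
    intro y m
    have h1 : ∀ (a : ι) (i : Fin D), Φ ((y + WithLp.toLp 2 (fun i => (m i : ℝ))) i -
        (q a i : ℝ) / b) = Φ (y i - (q a i : ℝ) / b) := by
      intro a i
      rw [← hΦ2 (y i - (q a i : ℝ) / b) (m i)]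
      congr 1
      rw [PiLp.add_apply]
      ring
    simp only [P, h1]
  have hNr : (b : ℝ) ^ r < N := by exact_mod_cast hN
  refine ⟨fun x => ∑' J : ℕ, P ((b : ℝ) ^ J • x) / (N : ℝ) ^ (J + 1),
    series r b N (by linarith) hNr P hP1 hP2, fun s => ?_⟩
  refine tsum_congr fun J => ?_
  congr 1
  -- the value of `P`
  have hval : ∀ (a : ι) (i : Fin D), Φ (((b : ℝ) ^ J • (WithLp.toLp 2 fun i =>
      ∑' J : ℕ, (q (s J) i : ℝ) / (b : ℝ) ^ (J + 1) : EuclideanSpace ℝ (Fin D))) i -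
        (q a i : ℝ) / b) = Φ (((q (s J) i : ℝ) - q a i +
          ∑' l : ℕ, (q (s (l + 1 + J)) i : ℝ) / (b : ℝ) ^ (l + 1)) / b) := by
    intro a i
    obtain ⟨m, hm⟩ := digits_shift hb (e := fun l => q (s l) i) (fun l => hq _ _) J
    have h1 := digits_succ hb (e := fun l => q (s (l + J)) i) (fun l => hq _ _)
    have h2 : ((b : ℝ) ^ J • (WithLp.toLp 2 fun i =>
        ∑' J : ℕ, (q (s J) i : ℝ) / (b : ℝ) ^ (J + 1) : EuclideanSpace ℝ (Fin D))) i =
        (b : ℝ) ^ J * ∑' J : ℕ, (q (s J) i : ℝ) / (b : ℝ) ^ (J + 1) := rfl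
    rw [h2, hm, ← hΦ2 (((q (s J) i : ℝ) - q a i +
          ∑' l : ℕ, (q (s (l + 1 + J)) i : ℝ) / (b : ℝ) ^ (l + 1)) / b) m]
    congr 1
    rw [zero_add] at h1
    field_simp
    linarith
  have htail : ∀ i, 0 ≤ ∑' l : ℕ, (q (s (l + 1 + J)) i : ℝ) / (b : ℝ) ^ (l + 1) ∧
      ∑' l : ℕ, (q (s (l + 1 + J)) i : ℝ) / (b : ℝ) ^ (l + 1) ≤ Q := fun i =>
    digits_bound hb (e := fun l => q (s (l + 1 + J)) i) (fun l => hq _ _)
  show ∑ a : ι, (∏ i, Φ (((b : ℝ) ^ J • (WithLp.toLp 2 fun i =>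
      ∑' J : ℕ, (q (s J) i : ℝ) / (b : ℝ) ^ (J + 1) : EuclideanSpace ℝ (Fin D))) i -
        (q a i : ℝ) / b)) * β a = β (s J)
  simp only [hval]
  rw [Finset.sum_eq_single (s J)]
  · rw [Finset.prod_eq_one, one_mul]
    intro i _
    refine hΦ3 _ ?_ ?_
    · rw [mul_div_cancel₀ _ hb0.ne', sub_self, zero_add]
      exact (htail i).1
    · rw [mul_div_cancel₀ _ hb0.ne', sub_self, zero_add]
      exact (htail i).2
  · intro a _ ha
    obtain ⟨i, hi⟩ := hsep (s J) a (Ne.symm ha)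
    rw [Finset.prod_eq_zero (Finset.mem_univ i), zero_mul]
    refine hΦ4 _ fun z => ?_
    rw [mul_add, mul_div_cancel₀ _ hb0.ne']
    have h1 := hi z
    have h2 := htail i
    rcases le_abs.1 h1 with h3 | h3
    · right
      have h4 : (Q : ℝ) + 2 ≤ (q (s J) i : ℝ) - q a i + b * z := by exact_mod_cast h3
      linarith [h2.1]
    · left
      have h4 : (Q : ℝ) + 2 ≤ -((q (s J) i : ℝ) - q a i + b * z) := by exact_mod_cast h3
      linarith [h2.2]
  · intro h
    exact absurd (Finset.mem_univ _) h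

end Pool.Agent.Zk11.KK
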